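import Mathlib
import Pool.Agent.H81.Refine

set_option autoImplicit false

namespace Pool.Agent.Results.MP_b5b962_gt.Trapezoid

open Set Pool.Agent.H81.Refine

theorem result : ∃ (n k : ℕ) (C : Set (Fin n → ℝ)),
    (∃ s : Set (Fin n → ℝ), s.Finite ∧ C = convexHull ℝ s) ∧ ¬ IsSimplex C ∧
    ∃ (D : Set (Fin k → ℝ)) (f : (Fin k → ℝ) → (Fin n → ℝ))
      (G : Set (stdSimplex ℝ (Fin k) → ℝ)) (g : (stdSimplex ℝ (Fin k) → ℝ) → (C → ℝ)),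
      Refines C (stdSimplex ℝ (Fin k)) D f G g ∧
      ∃ a ∈ C.extremePoints ℝ, ∃ b ∈ C.extremePoints ℝ, a ≠ b ∧
        ∃ i : Fin k, (∃ x ∈ D, f x = a ∧ 0 < x i) ∧ (∃ y ∈ D, f y = b ∧ 0 < y i) := by
  refine ⟨2, 5, C, ⟨_, finite_range V, C_eq⟩, not_simplex, D, f, G, g, refines,
    V 0, V_ext 0, V 1, V_ext 1, fun h => by simpa using V_inj h, 0, ?_, ?_⟩
  · obtain ⟨x, hx, h⟩ : V 0 ∈ f '' D := by rw [refines.1.2.2]; exact V_mem 0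
    exact ⟨x, hx, h, by rw [(pre0 hx h).1]; norm_num⟩
  · obtain ⟨x, hx, h⟩ : V 1 ∈ f '' D := by rw [refines.1.2.2]; exact V_mem 1
    exact ⟨x, hx, h, by rw [(pre1 hx h).1]; norm_num⟩

end Pool.Agent.Results.MP_b5b962_gt.Trapezoid
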